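import Pool.Agent.Helper28.OHS.Goals2

/-!
# Project OHS, packet OHS-COD: the codes of the functions
-/

namespace Pool.Agent.Helper19.OHS

open Pool.Agent.Helper65.LinSpace Pool.Agent.Helper78.Mpc Pool.Agent.Helper28.Ram
open Pool.Agent.Helper65.OH (Prm OneHead Par Fns)
open Pool.Agent.Helper81.Sus2 (Decomp CodE)
open Pool.Agent.Helper28.OHS

/-- Packet OHS-COD. -/
theorem cod : COD_stmt := by
  intro D A E
  obtain ⟨eA, cA, hA⟩ := fnN_spec A.addr_lin
  obtain ⟨eN, cN, hN⟩ := fnN_spec A.next_lin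
  obtain ⟨eW, cW, hW⟩ := fnN_spec A.write_lin
  obtain ⟨eD, cD, hD⟩ := fnN_spec E.addr_lin
  obtain ⟨eX, cX, hX⟩ := fnN_spec E.next_lin
  refine ⟨eA, eN, eW, eD, eX, (cA + cN + cW + cD + cX) * 2 + 4, ?_⟩
  intro w y m e hP heD heX hΛ hβ hB
  have key : ∀ (f : List Bool → List Bool) (e c' : ℕ), c' ≤ cA + cN + cW + cD + cX →
      (∀ (w : List Bool) (S Λ β B : ℕ), c' * (S + w.length + 2) ≤ Λ →
        c' + Λ + S + w.length + 1 ≤ β → 2 ^ (S + 1) ≤ B →
        fnN e S Λ β B (num w) = if (f w).length ≤ S then num (f w) else 0) →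
      Good f e m.S m.Λ m.β m.B (3 * m.S + 5) := by
    intro f e c' hc' hf u hu
    refine hf u _ _ _ _ ?_ ?_ hP.h_B
    · refine le_trans ?_ hP.h_Λ
      exact Nat.mul_le_mul (by omega) (by omega)
    · have := hP.h_β
      omega
  have hgood : ∀ (f : List Bool → List Bool) (e' c' : ℕ), c' ≤ cA + cN + cW + cD + cX →
      (∀ (w : List Bool) (S Λ β B : ℕ), c' * (S + w.length + 2) ≤ Λ →
        c' + Λ + S + w.length + 1 ≤ β → 2 ^ (S + 1) ≤ B →
        fnN e' S Λ β B (num w) = if (f w).length ≤ S then num (f w) else 0) →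
      ∀ u : List Bool, u.length ≤ 2 * e.Z + 1 + 7 →
        fnN e' e.Z e.Λ e.β e.B (num u) = if (f u).length ≤ e.Z then num (f u) else 0 := by
    intro f e' c' hc' hf u hu
    refine hf u _ _ _ _ ?_ ?_ ?_
    · refine le_trans ?_ hΛ
      calc c' * (e.Z + u.length + 2)
          ≤ (cA + cN + cW + cD + cX) * (2 * (8 * e.Z + 8)) := Nat.mul_le_mul hc' (by omega)
        _ = (cA + cN + cW + cD + cX) * 2 * (8 * e.Z + 8) := by ring
        _ ≤ _ := Nat.mul_le_mul_right _ (Nat.le_add_right _ _)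
    · omega
    · exact le_trans (Nat.pow_le_pow_right (by norm_num) (by omega)) hB
  refine ⟨⟨by rw [hP.h_eA]; exact key _ _ _ (by omega) hA,
    by rw [hP.h_eN]; exact key _ _ _ (by omega) hN,
    by rw [hP.h_eW]; exact key _ _ _ (by omega) hW⟩, ?_, ?_⟩
  · intro σ hσ
    unfold Pool.Agent.Helper81.Sus2.Prm.fD
    rw [heD]
    exact hgood _ _ _ (by omega) hD σ (by omega)
  · intro σ u hσ hu
    unfold Pool.Agent.Helper81.Sus2.Prm.fX
    rw [heX, sdN_num, catN_num]
    refine hgood _ _ _ (by omega) hX _ ?_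
    rw [List.length_append, length_sd]
    omega

end Pool.Agent.Helper19.OHS
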